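import Pool.Agent.Y910.F.Defs

/-!
Project FC, job FC-PLACE: a unique place at infinity has degree at least three.
-/

open Polynomial

set_option autoImplicit false

namespace Pool.Agent.Y348.FC

/-- a place of `Ω` over infinity which is trivial on the constants -/
theorem place (K Ω : Type) [Field K] [Algebra ℂ[X] K] [IsFractionRing ℂ[X] K] [Field Ω]
    [Algebra K Ω] :
    ∃ W : ValuationSubring Ω, (∀ z : ℂ, algebraMap K Ω (algebraMap ℂ[X] K (C z)) ∈ W) ∧
      algebraMap K Ω (algebraMap ℂ[X] K X) ∉ W := by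
  by_contra hcon
  have hcon' : ∀ W : ValuationSubring Ω,
      (∀ z : ℂ, algebraMap K Ω (algebraMap ℂ[X] K (C z)) ∈ W) →
      algebraMap K Ω (algebraMap ℂ[X] K X) ∈ W := by
    intro W hW
    by_contra h
    exact hcon ⟨W, hW, h⟩
  let ι : ℂ[X] →+* Ω := (algebraMap K Ω).comp (algebraMap ℂ[X] K)
  have hι : Function.Injective ι :=
    (algebraMap K Ω).injective.comp (IsFractionRing.injective ℂ[X] K)
  let cc : ℂ →+* Ω := ι.comp C
  have h1 : ι X ∈ (⨅ V : {V : ValuationSubring Ω // (Set.range cc) ⊆ V.toSubring},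
      V.1.toSubring) := by
    rw [Subring.mem_iInf]
    rintro ⟨V, hV⟩
    exact hcon' V (fun z => hV ⟨z, rfl⟩)
  rw [iInf_valuationSubring_superset] at h1
  have h2 : Subring.closure (Set.range cc) = cc.range := by
    rw [← RingHom.coe_range, Subring.closure_eq]
  rw [h2] at h1
  obtain ⟨p, hp, hp0⟩ : IsIntegral cc.range (ι X) := h1
  have hl : p ∈ lifts cc.rangeRestrict :=
    (mem_lifts p).2 (map_surjective _ cc.rangeRestrict_surjective p)
  obtain ⟨q, hq, -, hqm⟩ := lifts_and_degree_eq_and_monic hl hp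
  have h3 : ι q = 0 := by
    rw [← hq, eval₂_map] at hp0
    have h4 : (algebraMap cc.range Ω).comp cc.rangeRestrict = ι.comp C := rfl
    rw [h4, ← hom_eval₂, eval₂_C_X] at hp0
    exact hp0
  exact hqm.ne_zero (hι (by rw [h3, map_zero]))

theorem exists_poly {g : ℚ[X]} (hg : g.Monic) (hgi : Irreducible g) (hdeg : g.natDegree ≤ 2)
    (r : AdjoinRoot g) :
    ∃ m : ℚ[X], m ≠ 0 ∧ m.natDegree ≤ 2 ∧ eval₂ (AdjoinRoot.of g) r m = 0 := by
  have : Fact (Irreducible g) := ⟨hgi⟩
  have : Module.Finite ℚ (AdjoinRoot g) := (AdjoinRoot.powerBasis hg.ne_zero).finite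
  have hfr : Module.finrank ℚ (AdjoinRoot g) = g.natDegree := by
    rw [(AdjoinRoot.powerBasis hg.ne_zero).finrank, AdjoinRoot.powerBasis_dim]
  refine ⟨minpoly ℚ r, minpoly.ne_zero (IsIntegral.of_finite ℚ r), ?_, ?_⟩
  · exact ((minpoly.natDegree_le r).trans hfr.le).trans hdeg
  · have h1 := minpoly.aeval ℚ r
    rw [aeval_def] at h1
    have h2 : (algebraMap ℚ (AdjoinRoot g)) = AdjoinRoot.of g := Subsingleton.elim _ _
    rwa [h2] at h1

theorem done : Pool.Agent.Y910.F.StPLACE := by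
  intro K Ω _ _ _ _ _ _ d θ u t hu ht hfl i0 i1 hdist L _ _ ψ α β hα hβ A hA g hg hgi hres hdeg
  classical
  have : IsAlgClosed Ω := IsAlgClosure.isAlgClosed K
  obtain ⟨W, hW1, hW2⟩ := place K Ω
  let ι : ℂ[X] →+* Ω := (algebraMap K Ω).comp (algebraMap ℂ[X] K)
  let cc : ℂ →+* Ω := ι.comp C
  set x : Ω := algebraMap K Ω (algebraMap ℂ[X] K X) with hx
  have hx0 : x ≠ 0 := by
    intro h
    rw [h] at hW2
    exact hW2 W.zero_mem
  have hxv : W.valuation x⁻¹ < 1 :=
    W.mem_nonunits_iff.1 (W.inv_mem_nonunits_iff.2 (Or.inr hW2))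
  obtain ⟨τ, hτ⟩ := IsAlgClosed.exists_pow_nat_eq x (n := 2) two_pos
  have hτ0 : τ ≠ 0 := by
    rintro rfl
    exact hx0 (by rw [← hτ]; simp)
  have hccv : ∀ z : ℂ, W.valuation (cc z) ≤ 1 := fun z => (W.valuation_le_one_iff _).2 (hW1 z)
  have hnear : ∀ i, ∃ c : ℂ, c ^ 2 = u i ∧ W.valuation (t i / τ - cc c) < 1 := by
    intro i
    obtain ⟨dd, hdd⟩ := IsAlgClosed.exists_pow_nat_eq (u i) (n := 2) two_pos
    have h2 : t i ^ 2 = cc (u i) * (x - cc (θ i)) := by
      rw [ht i, map_mul, map_mul, map_sub, map_sub]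
      rfl
    have h3 : cc dd ^ 2 = cc (u i) := by rw [← map_pow, hdd]
    have h1 : (t i / τ - cc dd) * (t i / τ + cc dd) = -(cc (u i) * cc (θ i)) * x⁻¹ := by
      have h4 : (t i / τ - cc dd) * (t i / τ + cc dd) = t i ^ 2 / τ ^ 2 - cc dd ^ 2 := by ring
      rw [h4, h3, hτ, h2]
      field_simp
      ring
    by_cases h4 : W.valuation (t i / τ - cc dd) < 1
    · exact ⟨dd, hdd, h4⟩
    · refine ⟨-dd, by rw [neg_sq, hdd], ?_⟩
      rw [map_neg, sub_neg_eq_add]
      by_contra h5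
      have h6 := one_le_mul_of_one_le_of_one_le (not_lt.1 h4) (not_lt.1 h5)
      rw [← map_mul, h1, map_mul] at h6
      have h7 : W.valuation (-(cc (u i) * cc (θ i))) ≤ 1 := by
        rw [Valuation.map_neg, map_mul]
        exact mul_le_one' (hccv _) (hccv _)
      have h8 : W.valuation (-(cc (u i) * cc (θ i))) * W.valuation x⁻¹ < 1 :=
        mul_lt_one_of_nonneg_of_lt_one_right h7 zero_le hxv
      exact absurd h6 (not_le.2 h8)
  choose c hc1 hc2 using hnear
  -- the residue field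
  let e0 : ℂ →+* W := cc.codRestrict W hW1
  let ρ : W →+* IsLocalRing.ResidueField W := IsLocalRing.residue W
  have hsm : ∀ i, t i / τ ∈ W := by
    intro i
    have h1 : t i / τ = (t i / τ - cc (c i)) + cc (c i) := by ring
    rw [h1]
    exact W.add_mem _ _ ((W.valuation_le_one_iff _).1 (hc2 i).le) (hW1 _)
  let s : Fin d → W := fun i => ⟨t i / τ, hsm i⟩
  have hs : ∀ i, ρ (s i) = (ρ.comp e0) (c i) := by
    intro i
    have h1 : s i - e0 (c i) ∈ IsLocalRing.maximalIdeal W := by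
      rw [W.valuation_lt_one_iff]
      exact hc2 i
    exact (Ideal.Quotient.eq).2 h1
  have hinj : Function.Injective (ρ.comp e0) := (ρ.comp e0).injective
  -- the pull backs
  have hAσ : ∀ σ : Ω ≃ₐ[K] Ω, W.comap ((σ : Ω →+* Ω).comp ψ) = A := by
    intro σ
    rw [← hA]
    refine ⟨fun q => ?_, fun h => ?_⟩
    · rw [ValuationSubring.mem_comap]
      have h1 : ((σ : Ω →+* Ω).comp ψ) (algebraMap ℚ L q) = cc (algebraMap ℚ ℂ q) := by
        have h2 : (((σ : Ω →+* Ω).comp ψ).comp (algebraMap ℚ L)) = cc.comp (algebraMap ℚ ℂ) :=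
          Subsingleton.elim _ _
        exact congrArg (fun f => f q) h2
      rw [h1]
      exact hW1 _
    · have h1 := h.1
      rw [ValuationSubring.mem_comap] at h1
      apply hW2
      have h2 : ((σ : Ω →+* Ω).comp ψ) α = x := by
        show σ (ψ α) = x
        rw [hα]
        exact σ.commutes _
      rwa [h2] at h1
  have hAσ' : ∀ (σ : Ω ≃ₐ[K] Ω) (z : L), z ∈ A ↔ σ (ψ z) ∈ W := by
    intro σ z
    rw [← hAσ σ, ValuationSubring.mem_comap]
    rfl
  have hsum : (∑ i, t i) / τ = ((∑ i, s i : W) : Ω) := by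
    rw [Finset.sum_div]
    simp [s]
  have hφ1 : ψ (β ^ 2 / α) = ((∑ i, t i) / τ) ^ 2 := by
    rw [map_div₀, map_pow, hα, hβ, div_pow, hτ]
  have hφA : β ^ 2 / α ∈ A := by
    rw [hAσ' AlgEquiv.refl]
    show ψ (β ^ 2 / α) ∈ W
    rw [hφ1, hsum]
    exact W.toSubring.pow_mem (∑ i, s i : W).2 2
  obtain ⟨E⟩ := hres
  obtain ⟨m, hm0, hm2, hm⟩ := exists_poly hg hgi hdeg (E (IsLocalRing.residue A ⟨β ^ 2 / α, hφA⟩))
  have hroot : ∀ (σ : Ω ≃ₐ[K] Ω) (w : W) (y : ℂ),
      (σ (∑ i, t i)) / τ = (w : Ω) → ρ w = (ρ.comp e0) y →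
      (m.map (algebraMap ℚ ℂ)).eval (y ^ 2) = 0 := by
    intro σ w y hw hy
    let f : A →+* W := (((σ : Ω →+* Ω).comp ψ).comp A.subtype).codRestrict W
      (fun a => (hAσ' σ a.1).1 a.2)
    have hfl : IsLocalHom f := by
      constructor
      intro a ha
      obtain ⟨b, hb⟩ := ha.exists_right_inv
      have h1 : σ (ψ (a : L)) * (b : Ω) = 1 := congrArg Subtype.val hb
      have h2 : (a : L) ≠ 0 := by
        intro h
        rw [h, map_zero, map_zero, zero_mul] at h1
        exact zero_ne_one h1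
      have h3 : (a : L)⁻¹ ∈ A := by
        rw [hAσ' σ, map_inv₀, map_inv₀, inv_eq_of_mul_eq_one_right h1]
        exact b.2
      refine IsUnit.of_mul_eq_one (⟨_, h3⟩ : A) ?_
      apply Subtype.ext
      exact mul_inv_cancel₀ h2
    let G : AdjoinRoot g →+* IsLocalRing.ResidueField W :=
      (IsLocalRing.ResidueField.map f).comp E.symm.toRingHom
    have h4 : G (E (IsLocalRing.residue A ⟨β ^ 2 / α, hφA⟩)) = (ρ.comp e0) (y ^ 2) := by
      have h5 : G (E (IsLocalRing.residue A ⟨β ^ 2 / α, hφA⟩)) =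
          IsLocalRing.ResidueField.map f (IsLocalRing.residue A ⟨β ^ 2 / α, hφA⟩) := by
        show IsLocalRing.ResidueField.map f (E.symm (E _)) = _
        rw [E.symm_apply_apply]
      rw [h5, IsLocalRing.ResidueField.map_residue]
      have h6 : f ⟨β ^ 2 / α, hφA⟩ = w ^ 2 := by
        apply Subtype.ext
        show σ (ψ (β ^ 2 / α)) = (w : Ω) ^ 2
        rw [← hw, map_div₀, map_pow, hα, hβ, map_div₀, map_pow, div_pow, hτ]
        congr 1
        exact σ.commutes _
      rw [h6, map_pow, map_pow]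
      exact congrArg (fun z => z ^ 2) hy
    have h7 := congrArg G hm
    rw [map_zero, hom_eval₂, h4] at h7
    have h8 : G.comp (AdjoinRoot.of g) = (ρ.comp e0).comp (algebraMap ℚ ℂ) :=
      Subsingleton.elim _ _
    rw [h8, ← hom_eval₂] at h7
    rw [eval_map]
    exact hinj (by rw [h7, map_zero])
  have hflip : ∀ i : Fin d, (m.map (algebraMap ℚ ℂ)).eval ((∑ j, c j - 2 * c i) ^ 2) = 0 := by
    intro i
    obtain ⟨σ, hσ1, hσ2⟩ := hfl i
    refine hroot σ (∑ j, s j - 2 * s i) _ ?_ ?_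
    · have h1 : σ (∑ j, t j) = ∑ j, t j - 2 * t i := by
        rw [map_sum]
        rw [← Finset.add_sum_erase _ _ (Finset.mem_univ i),
          ← Finset.add_sum_erase Finset.univ t (Finset.mem_univ i), hσ1,
          Finset.sum_congr rfl (fun j hj => hσ2 j (Finset.ne_of_mem_erase hj))]
        ring
      rw [h1, sub_div, hsum]
      push_cast
      have : (2 : Ω) * t i / τ = 2 * (s i : Ω) := by
        show (2 : Ω) * t i / τ = 2 * (t i / τ)
        ring
      rw [this]
      rfl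
    · rw [map_sub, map_sub, map_sum, map_sum, map_mul, map_mul, map_ofNat, map_ofNat, hs]
      congr 1
      exact Finset.sum_congr rfl fun j _ => hs j
  have hid : (m.map (algebraMap ℚ ℂ)).eval ((∑ j, c j) ^ 2) = 0 := by
    refine hroot AlgEquiv.refl (∑ j, s j) _ hsum ?_
    rw [map_sum, map_sum]
    exact Finset.sum_congr rfl fun j _ => hs j
  obtain ⟨hd1, hd2, hd3⟩ := hdist c hc1
  have hz : m.map (algebraMap ℚ ℂ) = 0 := by
    refine eq_zero_of_natDegree_lt_card_of_eval_eq_zero' _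
      {(∑ i, c i) ^ 2, (∑ i, c i - 2 * c i0) ^ 2, (∑ i, c i - 2 * c i1) ^ 2} ?_ ?_
    · intro z hz
      rw [Finset.mem_insert, Finset.mem_insert, Finset.mem_singleton] at hz
      rcases hz with rfl | rfl | rfl
      · exact hid
      · exact hflip i0
      · exact hflip i1
    · rw [Finset.card_insert_of_notMem, Finset.card_insert_of_notMem, Finset.card_singleton,
        natDegree_map]
      · omega
      · rw [Finset.mem_singleton]
        exact hd3
      · rw [Finset.mem_insert, Finset.mem_singleton, not_or]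
        exact ⟨hd1, hd2⟩
  exact hm0 ((Polynomial.map_eq_zero _).1 hz)

end Pool.Agent.Y348.FC
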